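import Pool.Agent.H93.PF.TargetsB

/-!
# Board `pfs_modules`, row `LNB`: basic facts on `la`, `na`, `pa`
-/

set_option autoImplicit false

open MeasureTheory Filter Topology Finset Pool.Agent.H93.PF

namespace Pool.Agent.H41.PF

theorem sInf_eq_of {P : Set ℕ} {n : ℕ} (h : n ∈ P) (h' : ∀ j, j < n → j ∉ P) : sInf P = n := by
  have h1 : sInf P ≤ n := Nat.sInf_le h
  have h2 : sInf P ∈ P := Nat.sInf_mem ⟨n, h⟩
  by_contra hne
  exact h' _ (by omega) h2

/-- Basic facts on `la`, `na`, `pa`. -/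
theorem pf_LNB : T_LNB := by
  intro Y _ T S y
  refine ⟨?_, ?_, ?_, ?_⟩
  · intro h
    have h1 : la T S y ∈ {a : ℕ | zp T (-(a : ℤ)) y ∈ S} := Nat.sInf_mem h
    refine ⟨h1, ?_⟩
    intro j hj
    exact Nat.notMem_of_lt_sInf (m := j) (s := {a : ℕ | zp T (-(a : ℤ)) y ∈ S}) hj
  · intro h
    have h1 : na T S y ∈ {b : ℕ | 1 ≤ b ∧ zp T (b : ℤ) y ∈ S} := Nat.sInf_mem h
    refine ⟨h1.1, h1.2, ?_⟩
    intro j hj1 hj hc
    exact Nat.notMem_of_lt_sInf (m := j) (s := {b : ℕ | 1 ≤ b ∧ zp T (b : ℤ) y ∈ S}) hj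
      ⟨hj1, hc⟩
  · intro h
    have h1 : pa T S y ∈ {b : ℕ | 1 ≤ b ∧ zp T (-(b : ℤ)) y ∈ S} := Nat.sInf_mem h
    refine ⟨h1.1, h1.2, ?_⟩
    intro j hj1 hj hc
    exact Nat.notMem_of_lt_sInf (m := j) (s := {b : ℕ | 1 ≤ b ∧ zp T (-(b : ℤ)) y ∈ S}) hj
      ⟨hj1, hc⟩
  · intro s g hs hg x hsx hxg
    have hmem : ∀ a : ℤ, zp T a (zp T x y) ∈ S ↔ a + x ∈ ob T S y := by
      intro a
      rw [← zp_add]
      exact Iff.rfl
    have hl : la T S (zp T x y) = (x - s).toNat := by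
      unfold la
      apply sInf_eq_of
      · change zp T (-((x - s).toNat : ℤ)) (zp T x y) ∈ S
        rw [hmem]
        have : -((x - s).toNat : ℤ) + x = s := by omega
        rw [this]
        exact hs
      · intro j hj hc
        change zp T (-(j : ℤ)) (zp T x y) ∈ S at hc
        rw [hmem] at hc
        exact hg.2.2 _ (by omega) (by omega) hc
    have hn : na T S (zp T x y) = (s + g - x).toNat := by
      unfold na
      apply sInf_eq_of
      · refine ⟨by omega, ?_⟩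
        rw [hmem]
        have : ((s + g - x).toNat : ℤ) + x = s + g := by omega
        rw [this]
        exact hg.2.1
      · rintro j hj ⟨hj1, hc⟩
        rw [hmem] at hc
        exact hg.2.2 _ (by omega) (by omega) hc
    rw [hl, hn]
    constructor <;> omega

end Pool.Agent.H41.PF
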